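import Pool.Agent.TH57.AZ.Fin
import Pool.Agent.W656.VB6

set_option autoImplicit false

noncomputable section

namespace Pool.Agent.Results.MP_0f25e6_al.AllOrNothing

/-- `α * f` is nonzero for every nonzero square-summable `f`, where
`(α * f)(g) = ∑ α(k) f(k⁻¹ g)`. -/
def Regular {G : Type} [Group G] (α : G →₀ ℂ) : Prop :=
  ∀ f : G → ℂ, Memℓp f 2 → f ≠ 0 → ∃ g : G, ∑ k ∈ α.support, α k * f (k⁻¹ * g) ≠ 0

/-- All square-summable `f` with `α * f = 0`. -/
def kernel {G : Type} [Group G] (α : G →₀ ℂ) : Set (lp (fun _ : G => ℂ) 2) :=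
  {f | ∀ g : G, ∑ k ∈ α.support, α k * f (k⁻¹ * g) = 0}

open Classical in
/-- The von Neumann dimension of the kernel of left convolution by `α`: one minus the square of the
distance from the basis vector at the identity of `G` to the kernel (this is the squared length of
the projection of that vector to the kernel). -/
def kerDim {G : Type} [Group G] (α : G →₀ ℂ) : ℝ :=
  1 - Metric.infDist (lp.single 2 (1 : G) (1 : ℂ)) (kernel α) ^ 2

/-- The kernel of right multiplication by the matrix `A` on `ℓ²(G)^m`. -/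
def matrixKernel {G : Type} [Group G] {m n : ℕ} (A : Matrix (Fin m) (Fin n) (G →₀ ℂ)) :
    Set (lp (fun _ : Fin m × G => ℂ) 2) :=
  {x | ∀ (j : Fin n) (g : G),
    ∑ i : Fin m, (A i j).sum (fun h c => x (i, g * h⁻¹) * c) = 0}

open Classical in
/-- The von Neumann dimension of this kernel: the sum over `i` of one minus the squared distance
from the basis vector at `(i, 1)` to the kernel. -/
def matrixKerDim {G : Type} [Group G] {m n : ℕ} (A : Matrix (Fin m) (Fin n) (G →₀ ℂ)) : ℝ :=
  ∑ i : Fin m, (1 - (Metric.infDist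
    (lp.single 2 (i, (1 : G)) (1 : ℂ) : lp (fun _ : Fin m × G => ℂ) 2) (matrixKernel A)) ^ 2)

/-- `G` is torsion-free. -/
def TorsionFree (G : Type) [Group G] : Prop := ∀ g : G, ∀ n : ℕ, 0 < n → g ^ n = 1 → g = 1

/-- `C` is a class of torsion-free groups which is closed under subgroups and isomorphisms
(injective homomorphisms into a member), direct products of arbitrary families, semidirect products
with `ℤ`, and free products with free groups of finite rank. -/
structure ClosedClass (C : (G : Type) → [Group G] → Prop) : Prop where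
  torsionFree : ∀ (G : Type) [Group G], C G → TorsionFree G
  subgroup : ∀ (G H : Type) [Group G] [Group H] (f : G →* H), Function.Injective f → C H → C G
  product : ∀ (I : Type) (G : I → Type) [∀ i, Group (G i)], (∀ i, C (G i)) → C (∀ i, G i)
  semidirect : ∀ (G : Type) [Group G] (s : MulAut G), C G →
    C (G ⋊[zpowersHom (MulAut G) s] Multiplicative ℤ)
  freeProduct : ∀ (G : Type) [Group G] (m : ℕ), C G → C (Monoid.Coprod G (FreeGroup (Fin m)))

open Pool.Agent Pool.Agent.TH25.AD Pool.Agent.TH57.AZ
open Pool.Agent.H80R2.BC (L2 GMat vdim kerA Coef)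

theorem cls {C : (G : Type) → [Group G] → Prop} (h : ClosedClass C) : Cls C :=
  ⟨h.torsionFree, h.subgroup, h.product, h.semidirect, h.freeProduct⟩

theorem tf_of_isLcm {G : Type} [Group G] (h : W656.VA.IsLcm G 1) : TorsionFree G := by
  intro g n hn hg
  have h1 : IsOfFinOrder g := isOfFinOrder_iff_pow_eq_one.2 ⟨n, hn, hg⟩
  have h2 : Finite (Subgroup.zpowers g) := (finite_zpowers.2 h1).to_subtype
  have h3 := h.2.1 (Subgroup.zpowers g) h2
  rw [Nat.card_zpowers, Nat.dvd_one, orderOf_eq_one_iff] at h3
  exact h3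

/-- The torsion-free groups form such a class. -/
theorem closedClass_torsionFree : ClosedClass (fun (G : Type) [Group G] => TorsionFree G) := by
  refine ⟨fun G _ h => h, ?_, ?_, ?_, ?_⟩
  · intro G H _ _ f hf hH g n hn hg
    apply hf
    rw [map_one]
    refine hH _ n hn ?_
    rw [← map_pow, hg, map_one]
  · intro I G _ h g n hn hg
    funext i
    exact h i _ n hn (congrFun hg i)
  · intro G _ s hG g n hn hg
    have h1 : g.right = 1 := by
      refine tf_int _ n hn ?_
      have := congrArg SemidirectProduct.rightHom hg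
      rw [map_pow, map_one] at this
      exact this
    have h2 : g = SemidirectProduct.inl g.left := by
      apply SemidirectProduct.ext
      · rfl
      · rw [h1]
        rfl
    rw [h2, ← map_pow] at hg
    have h3 : g.left ^ n = 1 := by
      apply SemidirectProduct.inl_injective (φ := zpowersHom (MulAut G) s)
      rw [hg, map_one]
    rw [h2, hG _ n hn h3, map_one]
  · intro G _ m hG
    show TorsionFree (Monoid.Coprod G (FreeGroup (Fin m)))
    exact tf_of_isLcm (W656.VA.IsLcm.coprod (G := G) (W656.VA.isLcm_one hG) m)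

theorem kerDim_eq {G : Type} [Group G] (α : G →₀ ℂ) : kerDim α = kd α := rfl

theorem matrixKerDim_eq {G : Type} [Group G] {m n : ℕ}
    (A : Matrix (Fin m) (Fin n) (G →₀ ℂ)) : matrixKerDim A = vdim (kerA (W656.VA.cv A)) :=
  W656.VA.kerDim_eq A

theorem kd_pos_of {G : Type} [Group G] {α : G →₀ ℂ} (h : ¬ Regular α) : 0 < kd α := by
  unfold Regular at h
  push Not at h
  obtain ⟨f, hf, h0, h1⟩ := h
  refine kd_pos α (f := ⟨f, hf⟩) h1 ?_
  intro h2
  apply h0
  exact congrArg (fun x : lp (fun _ : G => ℂ) 2 => (x : G → ℂ)) h2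

theorem kd_of_regular {G : Type} [Group G] {α : G →₀ ℂ} (h : Regular α) : kd α = 0 := by
  by_contra hne
  obtain ⟨u, hu, _, hu2⟩ := exists_proj α
  have h0 : u ≠ 0 := by
    intro h0
    apply hne
    rw [← hu2, h0]
    simp
  obtain ⟨g, hg⟩ := h u (lp.memℓp u) (by
    intro h1
    exact h0 (lp.ext h1))
  exact hg (hu g)

theorem kd_zero {G : Type} [Group G] : kd (0 : G →₀ ℂ) = 1 := by
  classical
  unfold kd
  have : (lp.single 2 (1 : G) (1 : ℂ) : lp (fun _ : G => ℂ) 2) ∈ kern (0 : G →₀ ℂ) := by
    intro g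
    simp
  rw [Metric.infDist_zero_of_mem this]
  norm_num

theorem cv_inv {G : Type} [Group G] (α : G →₀ ℂ) :
    W656.VA.cv (fun _ _ => α.mapDomain (fun g => g⁻¹) : Matrix (Fin 1) (Fin 1) (G →₀ ℂ))
      = fun _ _ => α := by
  funext i j
  unfold W656.VA.cv
  rw [← Finsupp.mapDomain_comp]
  have : ((fun g : G => g⁻¹) ∘ fun g : G => g⁻¹) = id := by
    funext g
    simp
  rw [this, Finsupp.mapDomain_id]

/-- **All or nothing for analytic zero divisors.** Let `C` be a class of torsion-free groups which
is closed under subgroups, direct products, semidirect products with `ℤ` and free products with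
free groups of finite rank, for example the class of all torsion-free groups, and let `R` be any
subring of `ℂ`, for example `ℤ`. The following are equivalent.

1. For all `G` in `C` and all nonzero `α` in `ℂ[G]`, `α * f ≠ 0` for all nonzero `f` in `ℓ²(G)`.
2. Every nonzero `m × n` matrix over `ℂ[G]`, `G` in `C`, has rank at least one: the kernel of right
   multiplication on `ℓ²(G)^m` has von Neumann dimension at most `m - 1`.
3. Some real number `r` with `0 < r < 1` is not the dimension of the kernel of any single element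
   of `R[G]`, for any finitely generated group `G` in `C`.
4. For every group `G` in `C`, some real number `r` with `0 < r < 1` is not the dimension of the
   kernel of any single element of `R[G]`.

So if there is an analytic zero divisor over one torsion-free group, then every real number
`0 < r < 1` is the dimension of the kernel of one element of `ℤ[G]` for some finitely generated
torsion-free group `G`, and there is one torsion-free group for which all of them occur. -/
theorem result :
    ClosedClass (fun (G : Type) [Group G] => TorsionFree G) ∧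
    ∀ C : (G : Type) → [Group G] → Prop, ClosedClass C → ∀ R : Subring ℂ, List.TFAE [
      ∀ (G : Type) [Group G], C G → ∀ α : G →₀ ℂ, α ≠ 0 → Regular α,
      ∀ (G : Type) [Group G], C G → ∀ (m n : ℕ) (A : Matrix (Fin m) (Fin n) (G →₀ ℂ)),
        A ≠ 0 → matrixKerDim A ≤ m - 1,
      ∃ r : ℝ, 0 < r ∧ r < 1 ∧ ∀ (G : Type) [Group G], C G → Group.FG G →
        ∀ α : G →₀ ℂ, (∀ g, α g ∈ R) → kerDim α ≠ r,
      ∀ (G : Type) [Group G], C G → ∃ r : ℝ, 0 < r ∧ r < 1 ∧
        ∀ α : G →₀ ℂ, (∀ g, α g ∈ R) → kerDim α ≠ r] := by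
  refine ⟨closedClass_torsionFree, fun C hC R => ?_⟩
  have hhalf : (∀ (G : Type) [Group G], C G → ∀ α : G →₀ ℂ, α ≠ 0 → Regular α) →
      ∀ (G : Type) [Group G], C G → ∀ α : G →₀ ℂ, kerDim α ≠ 1 / 2 := by
    intro h G _ hG α h1
    rw [kerDim_eq] at h1
    by_cases h0 : α = 0
    · rw [h0, kd_zero] at h1
      norm_num at h1
    · rw [kd_of_regular (h G hG α h0)] at h1
      norm_num at h1
  tfae_have 1 → 2 := by
    intro h G _ hG m n A h0
    by_contra hc
    push Not at hc
    rw [matrixKerDim_eq] at hc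
    have h1 : rk (W656.VA.cv A) < 1 := by
      unfold rk
      rw [Fintype.card_fin]
      linarith
    have h2 : W656.VA.cv A ≠ 0 := by
      intro h3
      apply h0
      apply Matrix.ext
      intro i j
      have h4 : (A i j).mapDomain (fun g => g⁻¹) = 0 := congrFun (congrFun h3 j) i
      have h5 : Function.Injective (fun g : G => g⁻¹) := inv_injective
      exact Finsupp.mapDomain_injective h5 (h4.trans Finsupp.mapDomain_zero.symm)
    obtain ⟨H, _, hH, a, ha, ha1⟩ := elem_of_matrix (cls hC) hG _ h2 h1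
    rw [kd_of_regular (h H hH a ha)] at ha1
    exact lt_irrefl _ ha1
  tfae_have 2 → 1 := by
    intro h G _ hG α h0
    by_contra hr
    have h1 := kd_pos_of hr
    have h2 := h G hG 1 1 (fun _ _ => α.mapDomain (fun g => g⁻¹)) (by
      intro h3
      apply h0
      have h4 : α.mapDomain (fun g => g⁻¹) = 0 := congrFun (congrFun h3 0) 0
      have h5 : Function.Injective (fun g : G => g⁻¹) := inv_injective
      exact Finsupp.mapDomain_injective h5 (h4.trans Finsupp.mapDomain_zero.symm))
    have e0 := matrixKerDim_eq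
      (fun _ _ => α.mapDomain (fun g => g⁻¹) : Matrix (Fin 1) (Fin 1) (G →₀ ℂ))
    rw [cv_inv] at e0
    replace h2 : vdim (kerA (fun _ _ => α : GMat (Fin 1) (Fin 1) G)) ≤ ((1 : ℕ) : ℝ) - 1 :=
      e0.symm.le.trans h2
    have h3 := W656.VA.vdim_ri (Equiv.equivPUnit (Fin 1)) (Equiv.equivPUnit (Fin 1)) (one1 α)
    have h4 : W656.VA.ri (Equiv.equivPUnit (Fin 1)) (Equiv.equivPUnit (Fin 1)) (one1 α)
      = (fun _ _ => α : GMat (Fin 1) (Fin 1) G) := rfl
    rw [h4, ← kd_eq_vdim] at h3
    rw [h3] at h2
    norm_num at h2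
    linarith
  tfae_have 1 → 3 := by
    intro h
    exact ⟨1 / 2, by norm_num, by norm_num, fun G _ hG _ α _ => hhalf h G hG α⟩
  tfae_have 1 → 4 := by
    intro h G _ hG
    exact ⟨1 / 2, by norm_num, by norm_num, fun α _ => hhalf h G hG α⟩
  tfae_have 3 → 1 := by
    rintro ⟨r, hr0, hr1, h⟩ G _ hG α h0
    by_contra hno
    obtain ⟨H, _, hH, a, ha, har⟩ := all_kd (cls hC) hG h0 (kd_pos_of hno) r hr0 hr1
    obtain ⟨K, b, hK, hb, hbk⟩ := fg_elem a
    refine h K (hC.subgroup K H K.subtype K.subtype_injective hH) hK b (fun g => ?_) ?_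
    · rw [hb]
      exact (bot_le : (⊥ : Subring ℂ) ≤ R) (ha g)
    · rw [kerDim_eq, hbk, har]
  tfae_have 4 → 1 := by
    intro h G _ hG α h0
    by_contra hno
    have h1 : ∀ r : {r : ℝ // 0 < r ∧ r < 1}, ∃ (H : Type) (_ : Group H), C H ∧
        ∃ a : H →₀ ℂ, (∀ g, a g ∈ (⊥ : Subring ℂ)) ∧ kd a = r := by
      rintro ⟨r, hr0, hr1⟩
      exact all_kd (cls hC) hG h0 (kd_pos_of hno) r hr0 hr1
    choose H iH hH a ha har using h1
    obtain ⟨r, hr0, hr1, h2⟩ := h (∀ r, H r) (hC.product _ H hH)
    classical
    set ρ : {r : ℝ // 0 < r ∧ r < 1} := ⟨r, hr0, hr1⟩ with hρ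
    have hinj : Function.Injective (MonoidHom.mulSingle H ρ) := by
      intro x y hxy
      have := congrFun hxy ρ
      simpa using this
    refine h2 ((a ρ).mapDomain (MonoidHom.mulSingle H ρ)) (fun g => ?_) ?_
    · exact (bot_le : (⊥ : Subring ℂ) ≤ R) (W656.VA.coef_mapDomain _ _ (ha ρ) g)
    · rw [kerDim_eq, kd_map _ hinj, har]
  tfae_finish

end Pool.Agent.Results.MP_0f25e6_al.AllOrNothing
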