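import Pool.Agent.TH107.RF.CosetZD
import Pool.Agent.TH107.RF.Conv
import Pool.Agent.W649.ZL.Supp

set_option autoImplicit false

namespace Pool.Agent.Results.MP_0f25e6_al.ArtinConstantLabel

/-- The Artin group of a finite Coxeter matrix; an entry `0` stands for the label infinity, that is,
for no relation. -/
abbrev ArtinGroup {n : ℕ} (M : CoxeterMatrix (Fin n)) : Type :=
  PresentedGroup
    {r : FreeGroup (Fin n) | ∃ i j : Fin n, M.M i j ≠ 0 ∧
      r = ((List.range (M.M i j)).map
              (fun k => if Even k then FreeGroup.of i else FreeGroup.of j)).prod *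
          (((List.range (M.M i j)).map
              (fun k => if Even k then FreeGroup.of j else FreeGroup.of i)).prod)⁻¹}

/-- `α * f` is nonzero for every nonzero square-summable `f`, where
`(α * f)(g) = ∑ α(k) f(k⁻¹ g)`. -/
def Regular {G : Type} [Group G] (α : G →₀ ℂ) : Prop :=
  ∀ f : G → ℂ, Memℓp f 2 → f ≠ 0 → ∃ g : G, ∑ k ∈ α.support, α k * f (k⁻¹ * g) ≠ 0

/-- Let `M` be a Coxeter matrix such that no three distinct generators `i, j, k` have `m_ij` and
`m_jk` finite and at least three and `m_ik` finite, and suppose that the generators fall into classes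
(the values of `κ`) such that two generators of different classes have label two or infinity and two
generators of the same class `c` have label `m c` or infinity, where `m c` is at least three. Then
`α * f ≠ 0` for all nonzero `α` in the complex group algebra of the Artin group and all nonzero
square-summable `f`. -/
theorem result : ∀ (n : ℕ) (M : CoxeterMatrix (Fin n)),
    (∀ i j k : Fin n, i ≠ k → 3 ≤ M.M i j → 3 ≤ M.M j k → M.M i k = 0) →
    ∀ (κ : Fin n → ℕ) (m : ℕ → ℕ), (∀ c, 3 ≤ m c) →
      (∀ i j, i ≠ j → κ i = κ j → M.M i j = 0 ∨ M.M i j = m (κ i)) →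
      (∀ i j, κ i ≠ κ j → M.M i j = 0 ∨ M.M i j = 2) →
      ∀ α : ArtinGroup M →₀ ℂ, α ≠ 0 → Regular α := by
  intro n M hR
  have key : ∀ R : Set (FreeGroup (Fin n)), R = Pool.Agent.TH107.RF.rels M →
      ∀ (κ : Fin n → ℕ) (m : ℕ → ℕ), (∀ c, 3 ≤ m c) →
        (∀ i j, i ≠ j → κ i = κ j → M.M i j = 0 ∨ M.M i j = m (κ i)) →
        (∀ i j, κ i ≠ κ j → M.M i j = 0 ∨ M.M i j = 2) →
        ∀ α : PresentedGroup R →₀ ℂ, α ≠ 0 → Regular α := by
    rintro R rfl κ m hm hin hout α hα
    refine (Pool.Agent.W649.ZL.regular_iff α).2 ?_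
    exact Pool.Agent.W649.ZL.LI_injective _ _
      (Pool.Agent.TH107.RF.li_homog hR m hm hin hout) α rfl hα
  exact key _ (Pool.Agent.TH107.RF.rels_eq M)

end Pool.Agent.Results.MP_0f25e6_al.ArtinConstantLabel
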