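import Pool.Agent.TH107.RF.CosetZD
import Pool.Agent.TH107.RF.Conv
import Pool.Agent.W649.ZL.Supp

set_option autoImplicit false

namespace Pool.Agent.Results.MP_0f25e6_al.ArtinIndicableCosets

/-- The Artin group of a finite Coxeter matrix; an entry `0` stands for the label infinity, that is,
for no relation. -/
abbrev ArtinGroup {n : ℕ} (M : CoxeterMatrix (Fin n)) : Type :=
  PresentedGroup
    {r : FreeGroup (Fin n) | ∃ i j : Fin n, M.M i j ≠ 0 ∧
      r = ((List.range (M.M i j)).map
              (fun k => if Even k then FreeGroup.of i else FreeGroup.of j)).prod *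
          (((List.range (M.M i j)).map
              (fun k => if Even k then FreeGroup.of j else FreeGroup.of i)).prod)⁻¹}

/-- `α * f` is nonzero for every nonzero square-summable `f`, where
`(α * f)(g) = ∑ α(k) f(k⁻¹ g)`. -/
def Regular {G : Type} [Group G] (α : G →₀ ℂ) : Prop :=
  ∀ f : G → ℂ, Memℓp f 2 → f ≠ 0 → ∃ g : G, ∑ k ∈ α.support, α k * f (k⁻¹ * g) ≠ 0

/-- Every nontrivial finitely generated subgroup has a nontrivial homomorphism to the integers. -/
def LocallyIndicable (G : Type) [Group G] : Prop :=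
  ∀ H : Subgroup G, H.FG → H ≠ ⊥ → ∃ φ : H →* Multiplicative ℤ, ∃ h, φ h ≠ 1

/-- preimages of locally indicable groups -/
private theorem li_comap {G Q : Type} [Group G] [Group Q] (f : G →* Q)
    (hK : Pool.Agent.TH107.RF.LI f.ker) (T : Subgroup Q) (hT : LocallyIndicable T) :
    Pool.Agent.TH107.RF.LI (T.comap f) := by
  intro L hL hne
  by_cases h : ∃ k : L, f ((k : T.comap f) : G) ≠ 1
  · obtain ⟨k, hk⟩ := h
    refine Pool.Agent.TH107.RF.LI.of_hom (H := T) hT hL ((f.subgroupComap T).comp L.subtype)
      ⟨k, fun h => hk ?_⟩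
    exact congrArg (fun t : T => (t : Q)) h
  · push Not at h
    obtain ⟨x, hx⟩ := (L.ne_bot_iff_exists_ne_one).1 hne
    let j : L →* f.ker := ((T.comap f).subtype.comp L.subtype).codRestrict f.ker fun k => h k
    refine Pool.Agent.TH107.RF.LI.of_hom hK hL j ⟨x, fun h => hx ?_⟩
    apply Subtype.ext
    apply Subtype.ext
    exact congrArg (fun t : f.ker => (t : G)) h

private theorem aux {n : ℕ} (M : CoxeterMatrix (Fin n)) (hR : Pool.Agent.TH107.RF.RankTwo M)
    (T : Subgroup M.Group) (hT : LocallyIndicable T) (α : Pool.Agent.TH107.RF.Art M →₀ ℂ)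
    (g : Pool.Agent.TH107.RF.Art M) (hα : α ≠ 0)
    (hg : ∀ h ∈ α.support, Pool.Agent.TH107.RF.toCox M (g⁻¹ * h) ∈ T) : Regular α := by
  refine (Pool.Agent.W649.ZL.regular_iff α).2 ?_
  exact Pool.Agent.W649.ZL.LI_coset_injective g _
    (li_comap (Pool.Agent.TH107.RF.toCox M) (Pool.Agent.TH107.RF.li_ker hR) T hT) α
    (fun h hh => Subgroup.mem_comap.2 (hg h hh)) hα

/-- Let `M` be a Coxeter matrix such that no three distinct generators `i, j, k` have `m_ij` and
`m_jk` finite and at least three and `m_ik` finite, and let `π` be the homomorphism from the Artin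
group to the Coxeter group. Let `T` be a locally indicable subgroup of the Coxeter group. If
`α ≠ 0` in the complex group algebra of the Artin group has its support in one coset of the preimage
of `T`, then `α * f ≠ 0` for all nonzero square-summable `f` on the Artin group. -/
theorem result : ∀ (n : ℕ) (M : CoxeterMatrix (Fin n)),
    (∀ i j k : Fin n, i ≠ k → 3 ≤ M.M i j → 3 ≤ M.M j k → M.M i k = 0) →
    ∃ π : ArtinGroup M →* M.Group, (∀ i : Fin n, π (PresentedGroup.of i) = M.simple i) ∧
      ∀ (T : Subgroup M.Group), LocallyIndicable T →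
        ∀ (α : ArtinGroup M →₀ ℂ) (g : ArtinGroup M), α ≠ 0 →
          (∀ h ∈ α.support, π (g⁻¹ * h) ∈ T) → Regular α := by
  intro n M hR
  have key : ∀ R : Set (FreeGroup (Fin n)), R = Pool.Agent.TH107.RF.rels M →
      ∃ π : PresentedGroup R →* M.Group, (∀ i : Fin n, π (PresentedGroup.of i) = M.simple i) ∧
        ∀ (T : Subgroup M.Group), LocallyIndicable T →
          ∀ (α : PresentedGroup R →₀ ℂ) (g : PresentedGroup R), α ≠ 0 →
            (∀ h ∈ α.support, π (g⁻¹ * h) ∈ T) → Regular α := by
    rintro R rfl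
    refine ⟨Pool.Agent.TH107.RF.toCox M, fun i => Pool.Agent.TH107.RF.toCox_sg M i, ?_⟩
    intro T hT α g hα hg
    exact aux M hR T hT α g hα hg
  exact key _ (Pool.Agent.TH107.RF.rels_eq M)

end Pool.Agent.Results.MP_0f25e6_al.ArtinIndicableCosets
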