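import Pool.Agent.TH57.AZ.Wedge

set_option autoImplicit false

universe u

namespace Pool.Agent.Results.MP_0f25e6_al.UnitCoefficients

/-- `α * f` is nonzero for every nonzero square-summable `f`, where
`(α * f)(g) = ∑ α(k) f(k⁻¹ g)`. -/
def Regular {G : Type u} [Group G] (α : G →₀ ℂ) : Prop :=
  ∀ f : G → ℂ, Memℓp f 2 → f ≠ 0 → ∃ g : G, ∑ k ∈ α.support, α k * f (k⁻¹ * g) ≠ 0

/-- All square-summable `f` with `α * f = 0`. -/
def kernel {G : Type u} [Group G] (α : G →₀ ℂ) : Set (lp (fun _ : G => ℂ) 2) :=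
  {f | ∀ g : G, ∑ k ∈ α.support, α k * f (k⁻¹ * g) = 0}

open Classical in
/-- The von Neumann dimension of the kernel of left convolution by `α`: one minus the square of the
distance from the basis vector at the identity of `G` to the kernel (this is the squared length of
the projection of that vector to the kernel). -/
noncomputable def kerDim {G : Type u} [Group G] (α : G →₀ ℂ) : ℝ :=
  1 - Metric.infDist (lp.single 2 (1 : G) (1 : ℂ)) (kernel α) ^ 2

/-- All coefficients of `α` are `0`, `1` or `-1`. -/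
def Signed {G : Type u} (α : G →₀ ℂ) : Prop := ∀ g, α g = 0 ∨ α g = 1 ∨ α g = -1

/-- `G` is torsion-free. -/
def TorsionFree (G : Type u) [Group G] : Prop := ∀ g : G, ∀ n : ℕ, 0 < n → g ^ n = 1 → g = 1

open Pool.Agent.TH57.AZ

theorem kerDim_eq {G : Type u} [Group G] (α : G →₀ ℂ) : kerDim α = kd α := rfl

theorem exists_of_not_regular {G : Type u} [Group G] {α : G →₀ ℂ} (h : ¬ Regular α) :
    0 < kd α := by
  unfold Regular at h
  push Not at h
  obtain ⟨f, hf, h0, h1⟩ := h
  refine kd_pos α (f := ⟨f, hf⟩) h1 ?_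
  intro h2
  apply h0
  exact congrArg (fun x : lp (fun _ : G => ℂ) 2 => (x : G → ℂ)) h2

theorem kd_of_regular {G : Type u} [Group G] {α : G →₀ ℂ} (h : Regular α) : kd α = 0 := by
  by_contra hne
  obtain ⟨u, hu, _, hu2⟩ := exists_proj α
  have h0 : u ≠ 0 := by
    intro h0
    apply hne
    rw [← hu2, h0]
    simp
  obtain ⟨g, hg⟩ := h u (lp.memℓp u) (by
    intro h1
    exact h0 (lp.ext h1))
  exact hg (hu g)

/-- the alternating element of the support -/
theorem signed {G : Type u} [Group G] (α : G →₀ ℂ) (h0 : α ≠ 0) :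
    ∃ β : (Fin α.support.card → G) →₀ ℂ, β ≠ 0 ∧ Signed β ∧
      kd α ^ α.support.card ≤ kd β := by
  set e := α.support.equivFin.symm with he
  set g : Fin α.support.card → G := fun i => (e i : G) with hg
  have hinj : Function.Injective g := fun i j h => e.injective (Subtype.ext h)
  refine ⟨wd g, wd_ne_zero hinj, wd_values hinj, kd_wedge α g hinj ?_ h0⟩
  intro x
  constructor
  · intro hx
    exact ⟨e.symm ⟨x, hx⟩, by rw [hg]; simp⟩
  · rintro ⟨i, rfl⟩
    exact (e i).2

theorem torsionFree_pow (G : Type u) [Group G] (n : ℕ) (h : TorsionFree G) :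
    TorsionFree (Fin n → G) := by
  intro g k hk hg
  funext i
  exact h (g i) k hk (congrFun hg i)

/-- **Analytic zero divisors: complex coefficients reduce to coefficients `-1, 0, 1`.**

1. Let `G` be any group and `α` a nonzero element of the complex group algebra of `G` whose
   support has `n` elements. There is a nonzero element `β` of the group algebra of `Gⁿ`, all of
   whose coefficients are `0`, `1` or `-1`, such that the kernel of `β` on `ℓ²(Gⁿ)` has von Neumann
   dimension at least the `n`-th power of that of `α` on `ℓ²(G)`.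
2. Let `C` be a class of groups which is closed under finite powers. Equivalent are: (a) for all `G`
   in `C` and all nonzero `α` in `ℂ[G]`, `α * f ≠ 0` for all nonzero `f` in `ℓ²(G)`; (b) the same
   for all nonzero `α` with coefficients `0, 1, -1`; (c) for some `ε > 0` no kernel of such an `α`
   has von Neumann dimension greater than `1 - ε`.
3. The torsion-free groups are such a class. -/
theorem result :
    (∀ (G : Type u) [Group G] (α : G →₀ ℂ), α ≠ 0 →
      ∃ β : (Fin α.support.card → G) →₀ ℂ, β ≠ 0 ∧ Signed β ∧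
        kerDim α ^ α.support.card ≤ kerDim β) ∧
    (∀ C : (G : Type u) → [Group G] → Prop,
      (∀ (G : Type u) [Group G] (n : ℕ), C G → C (Fin n → G)) →
      List.TFAE [
        ∀ (G : Type u) [Group G], C G → ∀ α : G →₀ ℂ, α ≠ 0 → Regular α,
        ∀ (G : Type u) [Group G], C G → ∀ α : G →₀ ℂ, α ≠ 0 → Signed α → Regular α,
        ∃ ε : ℝ, 0 < ε ∧ ∀ (G : Type u) [Group G], C G →
          ∀ α : G →₀ ℂ, α ≠ 0 → Signed α → kerDim α ≤ 1 - ε]) ∧
    (∀ (G : Type u) [Group G] (n : ℕ), TorsionFree G → TorsionFree (Fin n → G)) := by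
  refine ⟨fun G _ α h0 => signed α h0, ?_, fun G _ n h => torsionFree_pow G n h⟩
  intro C hC
  tfae_have 1 → 2 := fun h G _ hG α h0 _ => h G hG α h0
  tfae_have 2 → 3 := by
    intro h
    refine ⟨1, one_pos, fun G _ hG α h0 h1 => ?_⟩
    rw [kerDim_eq, kd_of_regular (h G hG α h0 h1)]
    norm_num
  tfae_have 3 → 1 := by
    rintro ⟨ε, hε, h⟩ G _ hG α h0
    by_contra hr
    have h1 := exists_of_not_regular hr
    obtain ⟨β, hβ0, hβ1, hβ2⟩ := signed α h0
    have h2 : 0 < kd β := lt_of_lt_of_le (pow_pos h1 _) hβ2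
    have h3 : 1 - kd β < 1 := by linarith
    have h4 : 0 ≤ 1 - kd β := by linarith [kd_le_one β]
    obtain ⟨m, hm⟩ := exists_pow_lt_of_lt_one hε h3
    have h5 := kd_tpF m β
    have h6 := h _ (hC _ m (hC G _ hG)) (tpF m β) (tpF_ne_zero m hβ0) (tpF_values m hβ1)
    rw [kerDim_eq] at h6
    linarith
  tfae_finish

end Pool.Agent.Results.MP_0f25e6_al.UnitCoefficients
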